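import Pool.Agent.Run7.h680.BD.Stm

/-! # Piece POT: potentials from a ranking -/

set_option autoImplicit false

namespace Run7.h181.BD

open SimpleGraph Pool.Agent.Run7.h680.BD

/-- The letter of a vertex for the colour `c`: `kd` is `0` (`U`), `1` (`D`) or `2` (`w`). -/
def L (σ : Fin 3) (cc : Bool) (kd : Fin 3) (c : Bool) : ℕ :=
  3 * (if c = true then 2 * σ.val + cc.toNat else 5 - (2 * σ.val + cc.toNat)) +
    (if c = cc then kd.val else (kd.val + 2) % 3)

theorem L_lt : ∀ σ cc kd c, L σ cc kd c < 18 := by decide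

theorem L_up : ∀ σ σ' cc' kd', σ < σ' → L σ true 2 true < L σ' cc' kd' true := by decide

theorem L_dn : ∀ σ σ' cc' kd', σ' < σ → L σ false 2 false < L σ' cc' kd' false := by decide

theorem L_wU : ∀ σ cc, L σ cc 2 (!cc) < L σ cc 0 (!cc) := by decide

theorem L_Dw : ∀ σ cc c, L σ cc 1 c < L σ cc 2 c := by decide

theorem L_ex : ∀ σ cc kd σ' cc' kd', kd ≠ 2 → (σ, cc, kd) ≠ (σ', cc', kd') →
    ∃ c, L σ cc kd c < L σ' cc' kd' c := by decide

theorem lv_le {V : Type} (p₂ : V → Option V) (l₂ : V → ℕ)
    (h : ∀ x y, p₂ x = some y → l₂ x = l₂ y + 1) {a b : V}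
    (hr : Relation.ReflTransGen (fun a b => p₂ a = some b) a b) : l₂ b ≤ l₂ a := by
  induction hr with
  | refl => exact le_rfl
  | tail _ hab ih =>
    have := h _ _ hab
    omega

theorem rel {n : ℕ} {V : Type} [Fintype V] (B : SimpleGraph V) (p p₂ : V → Option V)
    (l₂ ρ : V → ℕ)
    (h2 : ∀ x y, p₂ x = some y → B.Adj x y ∧ l₂ x = l₂ y + 1)
    (h2' : ∀ x y, B.Adj x y → p₂ x = some y ∨ p₂ y = some x)
    (hn : ∀ x, ρ x < n)
    (r1 : ∀ x y, p x = some y → ¬ (Bge B ρ (ρ x)).Reachable x y)
    (r2 : ∀ x y, x ≠ y → ρ x = ρ y → ¬ (Bge B ρ (ρ x)).Reachable x y) (m : ℕ) :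
    ∀ (k : ℕ), n ≤ k + m → ∀ P : Set V, (∀ x ∈ P, k ≤ ρ x) →
      (∀ x ∈ P, ∀ y, B.Adj x y → k ≤ ρ y → y ∈ P) → ∀ x : V → Bool,
      ∃ (s : V → Bool) (e : Bool → V → ℕ), (∀ c z, e c z < 18 ^ m) ∧
        ∀ z ∈ P, (∀ y, p z = some y → y ∉ P → s z = x z) ∧
          (∀ y, p z = some y → y ∈ P → e (s z) z < e (s z) y) ∧
          (∀ y, p₂ z = some y → y ∈ P → e (!s z) z < e (!s z) y) := by
  classical
  induction m with
  | zero =>
    intro k hk P hP _ x
    refine ⟨fun _ => true, fun _ _ => 0, fun _ _ => by simp, fun z hz => ?_⟩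
    have := hP z hz
    have := hn z
    omega
  | succ m ih =>
    intro k hk P hP hcl x
    let G := Bge B ρ k
    let κ : V → G.ConnectedComponent := G.connectedComponentMk
    have hκ : ∀ a b, κ a = κ b ↔ G.Reachable a b := fun a b => ConnectedComponent.eq
    have hκadj : ∀ a b, B.Adj a b → k ≤ ρ a → k ≤ ρ b → κ a = κ b := fun a b h ha hb =>
      (hκ a b).2 (Adj.reachable (show G.Adj a b from ⟨h, ha, hb⟩))
    have huniq : ∀ w w', ρ w = k → ρ w' = k → κ w = κ w' → w = w' := by
      intro w w' hw hw' h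
      by_contra hne
      have h3 := r2 w w' hne (hw.trans hw'.symm)
      rw [hw] at h3
      exact h3 ((hκ _ _).1 h)
    have : Fintype G.ConnectedComponent :=
      Fintype.ofSurjective κ (fun C => by
        induction C using ConnectedComponent.ind with
        | h v => exact ⟨v, rfl⟩)
    let f : G.ConnectedComponent → G.ConnectedComponent := fun C =>
      if h : ∃ y, y ∈ P ∧ ∃ w, w ∈ P ∧ ρ w = k ∧ κ w = C ∧ p w = some y then κ h.choose else C
    obtain ⟨σ, hσ⟩ := Pool.Agent.TH87.BD.three f
    have hf : ∀ w y, w ∈ P → ρ w = k → p w = some y → y ∈ P → f (κ w) = κ y := by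
      intro w y hw hwk hy hyP
      have hex : ∃ y, y ∈ P ∧ ∃ w', w' ∈ P ∧ ρ w' = k ∧ κ w' = κ w ∧ p w' = some y :=
        ⟨y, hyP, w, hw, hwk, rfl, hy⟩
      have h1 : f (κ w) = κ hex.choose := dif_pos hex
      obtain ⟨_, w', _, hw'k, hw'κ, hw'p⟩ := hex.choose_spec
      have h3 := huniq w' w hw'k hwk hw'κ
      rw [h3] at hw'p
      rw [h1, Option.some.inj (hw'p.symm.trans hy)]
    have hσne : ∀ w y, w ∈ P → ρ w = k → p w = some y → y ∈ P → σ (κ w) ≠ σ (κ y) := by
      intro w y hw hwk hy hyP
      have h1 := hf w y hw hwk hy hyP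
      have h3 := hσ (κ w) (by
        rw [h1]
        intro h
        have h4 := r1 w y hy
        rw [hwk] at h4
        exact h4 ((hκ _ _).1 h.symm))
      rwa [h1] at h3
    let ccv : V → Bool := fun w => match p w with
      | some y => if y ∈ P then decide (σ (κ w) < σ (κ y)) else x w
      | none => true
    let cc : G.ConnectedComponent → Bool := fun C =>
      if h : ∃ w, ρ w = k ∧ κ w = C then ccv h.choose else true
    have hcc : ∀ w, ρ w = k → cc (κ w) = ccv w := by
      intro w hwk
      have hex : ∃ w', ρ w' = k ∧ κ w' = κ w := ⟨w, hwk, rfl⟩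
      have h1 : cc (κ w) = ccv hex.choose := dif_pos hex
      rw [h1, huniq _ w hex.choose_spec.1 hwk hex.choose_spec.2]
    let D : V → Prop := fun z =>
      ∃ w, ρ w = k ∧ κ z = κ w ∧ Relation.ReflTransGen (fun a b => p₂ a = some b) z w
    let kd : V → Fin 3 := fun z => if ρ z = k then 2 else if D z then 1 else 0
    let τ : V → Fin 3 × Bool × Fin 3 := fun z => (σ (κ z), cc (κ z), kd z)
    let ℓ : V → Bool → ℕ := fun z c => L (σ (κ z)) (cc (κ z)) (kd z) c
    have hkd2 : ∀ z, ρ z = k → kd z = 2 := fun z hz => if_pos hz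
    have hkdne : ∀ z, k < ρ z → kd z ≠ 2 := by
      intro z hz
      have h1 : kd z = if D z then 1 else 0 := if_neg (by omega)
      rw [h1]
      split_ifs <;> decide
    have hD : ∀ z y, p₂ z = some y → k < ρ z → k < ρ y → (D z ↔ D y) := by
      intro z y hzy hz hy
      have hadj := (h2 z y hzy).1
      have hk' := hκadj z y hadj hz.le hy.le
      constructor
      · rintro ⟨w, hw, hzw, hr⟩
        refine ⟨w, hw, hk'.symm.trans hzw, ?_⟩
        rcases Relation.ReflTransGen.cases_head hr with h | ⟨c, hc, hcw⟩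
        · rw [h, hw] at hz
          exact absurd hz (lt_irrefl _)
        · have h3 : c = y := Option.some.inj (hc.symm.trans hzy)
          rwa [h3] at hcw
      · rintro ⟨w, hw, hyw, hr⟩
        exact ⟨w, hw, hk'.trans hyw, Relation.ReflTransGen.head hzy hr⟩
    have hkdeq : ∀ z y, p₂ z = some y → k < ρ z → k < ρ y → kd z = kd y := by
      intro z y hzy hz hy
      have h1 : kd z = if D z then 1 else 0 := if_neg (by omega)
      have h3 : kd y = if D y then 1 else 0 := if_neg (by omega)
      rw [h1, h3]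
      simp only [hD z y hzy hz hy]
    have hτeq : ∀ z y, B.Adj z y → k < ρ z → k < ρ y → τ y = τ z := by
      intro z y hzy hz hy
      have hk' := hκadj z y hzy hz.le hy.le
      have h3 : kd z = kd y := by
        rcases h2' z y hzy with h | h
        · exact hkdeq z y h hz hy
        · exact (hkdeq y z h hy hz).symm
      show (σ (κ y), cc (κ y), kd y) = (σ (κ z), cc (κ z), kd z)
      rw [hk', h3]
    let x' : V → Bool := fun z => match p z with
      | some y => if y ∈ P then (if h : ∃ c, ℓ z c < ℓ y c then h.choose else true) else x z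
      | none => true
    have hx'1 : ∀ z y, p z = some y → y ∉ P → x' z = x z := by
      intro z y hy hyP
      simp only [x', hy, if_neg hyP]
    have hx'2 : ∀ z y, p z = some y → y ∈ P → (∃ c, ℓ z c < ℓ y c) →
        ℓ z (x' z) < ℓ y (x' z) := by
      intro z y hy hyP hex
      have h1 : x' z = hex.choose := by
        simp only [x', hy, if_pos hyP, dif_pos hex]
      rw [h1]
      exact hex.choose_spec
    have ih' := fun t : Fin 3 × Bool × Fin 3 =>
      ih (k + 1) (by omega) {z | z ∈ P ∧ k < ρ z ∧ τ z = t} (fun z hz => hz.2.1)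
        (fun z hz y hzy hy => ⟨hcl z hz.1 y hzy (by omega), hy,
          (hτeq z y hzy hz.2.1 hy).trans hz.2.2⟩) x'
    choose s' e' he' hs' using ih'
    let ε : Bool → V → ℕ := fun c z => if ρ z = k then 0 else e' (τ z) c z
    have hε : ∀ c z, ε c z < 18 ^ m := by
      intro c z
      by_cases hz : ρ z = k
      · have h1 : ε c z = 0 := if_pos hz
        rw [h1]
        positivity
      · have h1 : ε c z = e' (τ z) c z := if_neg hz
        rw [h1]
        exact he' _ _ _
    let e : Bool → V → ℕ := fun c z => ℓ z c * 18 ^ m + ε c z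
    let s : V → Bool := fun z => if ρ z = k then cc (κ z) else s' (τ z) z
    have hcmp : ∀ z y c, ℓ z c < ℓ y c → e c z < e c y := by
      intro z y c h
      have h1 := hε c z
      have h3 : (ℓ z c + 1) * 18 ^ m ≤ ℓ y c * 18 ^ m := Nat.mul_le_mul_right _ h
      show ℓ z c * 18 ^ m + ε c z < ℓ y c * 18 ^ m + ε c y
      rw [Nat.add_mul, Nat.one_mul] at h3
      omega
    refine ⟨s, e, ?_, ?_⟩
    · intro c z
      have h1 := hε c z
      have h3 : (ℓ z c + 1) * 18 ^ m ≤ 18 * 18 ^ m := Nat.mul_le_mul_right _ (L_lt _ _ _ _)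
      show ℓ z c * 18 ^ m + ε c z < 18 ^ (m + 1)
      rw [Nat.add_mul, Nat.one_mul] at h3
      rw [pow_succ, Nat.mul_comm (18 ^ m) 18]
      omega
    · intro z hz
      by_cases hzk : ρ z = k
      · -- the vertex of rank `k`
        have hs : s z = cc (κ z) := if_pos hzk
        have hccz := hcc z hzk
        refine ⟨?_, ?_, ?_⟩
        · intro y hy hyP
          rw [hs, hccz]
          simp only [ccv, hy, if_neg hyP]
        · intro y hy hyP
          rw [hs]
          apply hcmp
          have h1 : ccv z = decide (σ (κ z) < σ (κ y)) := by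
            simp only [ccv, hy, if_pos hyP]
          have hne := hσne z y hz hzk hy hyP
          show L (σ (κ z)) (cc (κ z)) (kd z) (cc (κ z)) < L (σ (κ y)) (cc (κ y)) (kd y) (cc (κ z))
          rw [hkd2 z hzk]
          rcases lt_or_gt_of_ne hne with hlt | hlt
          · have h3 : cc (κ z) = true := by rw [hccz, h1, decide_eq_true hlt]
            rw [h3]
            exact L_up _ _ _ _ hlt
          · have h3 : cc (κ z) = false := by rw [hccz, h1, decide_eq_false (not_lt.2 hlt.le)]
            rw [h3]
            exact L_dn _ _ _ _ hlt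
        · intro y hy hyP
          rw [hs]
          apply hcmp
          obtain ⟨hadj, hl⟩ := h2 z y hy
          have hky := hP y hyP
          have hκy := hκadj z y hadj hzk.ge hky
          have hyk : k < ρ y := by
            rcases hky.lt_or_eq with h | h
            · exact h
            · exact absurd (huniq z y hzk h.symm hκy) hadj.ne
          have hnD : ¬ D y := by
            rintro ⟨w, hw, hyw, hr⟩
            have h3 := huniq z w hzk hw (hκy.trans hyw)
            rw [← h3] at hr
            have h4 : l₂ z ≤ l₂ y := lv_le p₂ l₂ (fun a b h => (h2 a b h).2) hr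
            omega
          have hkdy : kd y = 0 := by
            have h1 : kd y = if D y then 1 else 0 := if_neg (by omega)
            rw [h1, if_neg hnD]
          show L (σ (κ z)) (cc (κ z)) (kd z) (!cc (κ z)) < L (σ (κ y)) (cc (κ y)) (kd y) (!cc (κ z))
          rw [← hκy, hkd2 z hzk, hkdy]
          exact L_wU _ _
      · have hkz : k < ρ z := lt_of_le_of_ne (hP z hz) (Ne.symm hzk)
        have hs : s z = s' (τ z) z := if_neg hzk
        have hεz : ∀ c, ε c z = e' (τ z) c z := fun c => if_neg hzk
        obtain ⟨i1, i2, i3⟩ := hs' (τ z) z ⟨hz, hkz, rfl⟩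
        have hsame : ∀ y, y ∈ P → k < ρ y → τ y = τ z → ∀ c, e' (τ z) c z < e' (τ z) c y →
            e c z < e c y := by
          intro y hyP hky hτ c h
          have h1 : ε c y = e' (τ z) c y := by
            have h3 : ε c y = e' (τ y) c y := if_neg (by omega)
            rw [h3, hτ]
          have h4 : ℓ z c = ℓ y c := by
            have h5 := Prod.mk.inj hτ
            have h6 := Prod.mk.inj h5.2
            show L (σ (κ z)) (cc (κ z)) (kd z) c = L (σ (κ y)) (cc (κ y)) (kd y) c
            rw [h5.1, h6.1, h6.2]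
          show ℓ z c * 18 ^ m + ε c z < ℓ y c * 18 ^ m + ε c y
          rw [hεz, h1, h4]
          omega
        refine ⟨?_, ?_, ?_⟩
        · intro y hy hyP
          rw [hs, i1 y hy (fun h => hyP h.1), hx'1 z y hy hyP]
        · intro y hy hyP
          by_cases hyt : k < ρ y ∧ τ y = τ z
          · rw [hs]
            exact hsame y hyP hyt.1 hyt.2 _ (i2 y hy ⟨hyP, hyt.1, hyt.2⟩)
          · rw [hs, i1 y hy (fun h => hyt h.2)]
            apply hcmp
            apply hx'2 z y hy hyP
            apply L_ex _ _ _ _ _ _ (hkdne z hkz)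
            intro hτ
            apply hyt
            refine ⟨?_, hτ.symm⟩
            rcases (hP y hyP).lt_or_eq with h | h
            · exact h
            · exfalso
              have h5 := (Prod.mk.inj (Prod.mk.inj hτ).2).2
              rw [hkd2 y h.symm] at h5
              exact hkdne z hkz h5
        · intro y hy hyP
          obtain ⟨hadj, hl⟩ := h2 z y hy
          have hκy := hκadj z y hadj hkz.le (hP y hyP)
          rcases (hP y hyP).lt_or_eq with h | h
          · have hτ := hτeq z y hadj hkz h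
            rw [hs]
            exact hsame y hyP h hτ _ (i3 y hy ⟨hyP, h, hτ⟩)
          · apply hcmp
            have hDz : D z := ⟨y, h.symm, hκy, Relation.ReflTransGen.single hy⟩
            have hkdz : kd z = 1 := by
              have h1 : kd z = if D z then 1 else 0 := if_neg (by omega)
              rw [h1, if_pos hDz]
            show L (σ (κ z)) (cc (κ z)) (kd z) (!s z) < L (σ (κ y)) (cc (κ y)) (kd y) (!s z)
            rw [← hκy, hkd2 y h.symm, hkdz]
            exact L_Dw _ _ _

/-- Piece POT. -/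
theorem t_pot : S_POT := by
  intro n V _ B p p₂ l₂ ρ h2 h2' hn r1 r2
  obtain ⟨s, e, he, h⟩ := rel B p p₂ l₂ ρ h2 h2' hn r1 r2 n 0 (by omega) Set.univ
    (fun x _ => Nat.zero_le _) (fun x _ y _ _ => Set.mem_univ _) (fun _ => true)
  exact ⟨s, e, he, fun z y hy => (h z (Set.mem_univ _)).2.1 y hy (Set.mem_univ _),
    fun z y hy => (h z (Set.mem_univ _)).2.2 y hy (Set.mem_univ _)⟩

end Run7.h181.BD
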